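import Pool.Agent.Q108.FF.Contract
import Pool.Agent.Q108.FF.Bip

set_option autoImplicit false
set_option linter.unusedSectionVars false

open Finset

namespace Pool.Agent.Results.MP_7cf8d2_co.ThreeColourable

open Pool.Agent.Helper347.Sab
open Pool.Agent.Results.MP_0c3aa4_co.ThroughDominating (Connected TwoRegular)

/-!
Circuits as members of 5-cycle double covers of cubic multigraphs.

A nowhere-zero 4-flow of G/E(C) is multiplied on each component of G - E(C) by a nonzero element
of the field with four elements. The conditions for a 5-cycle double cover with member C are one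
parity for each component, they form the values of a Hermitian form, and the number of choices of
the factors for which all parities vanish is odd (Pool.Agent.Q108.FF.Herm, Scale, Cover).
-/

variable {V E : Type} [Fintype V] [DecidableEq V] [Fintype E] [DecidableEq E]

/-- No edge is a bridge: the ends of every edge are joined by a path avoiding it. -/
def Bridgeless (G : MGraph V E) : Prop :=
  ∀ e a b, G.ends e = s(a, b) →
    Relation.ReflTransGen (fun x y => ∃ f ∈ univ.erase e, G.ends f = s(x, y)) a b

/-- A k-cycle double cover: a family of k even subgraphs such that every edge lies in exactly two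
of them. -/
def IsKCDC (G : MGraph V E) (k : ℕ) (D : Fin k → Finset E) : Prop :=
  (∀ i v, Even (dg G (D i) v)) ∧ ∀ e, (univ.filter fun i => e ∈ D i).card = 2

/-- The edges of F can be coloured with three colours such that distinct edges of F sharing a
vertex have distinct colours. -/
def EdgeThreeColourable (G : MGraph V E) (F : Finset E) : Prop :=
  ∃ c : E → Fin 3, ∀ e ∈ F, ∀ f ∈ F, e ≠ f → Touch G e f → c e ≠ c f

/-- The vertices off C can be coloured with two colours such that adjacent ones differ. -/
def BipartiteOff (G : MGraph V E) (C : Finset E) : Prop :=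
  ∃ s : V → Bool, ∀ e a b, G.ends e = s(a, b) → dg G C a = 0 → dg G C b = 0 → s a ≠ s b

/-- every vertex is its own representative outside S, the vertices of a circuit share one -/
theorem exists_rep (G : MGraph V E) (S : Finset E) :
    ∃ π : V → V, (∀ v, Pool.Agent.Helper998.Near.Rch G S v (π v)) ∧
      ∀ a b, Pool.Agent.Helper998.Near.Rch G S a b → π a = π b := by
  classical
  let st : Setoid V := ⟨fun a b => Pool.Agent.Helper998.Near.Rch G S a b,
    ⟨fun _ => Relation.ReflTransGen.refl,
    fun {a b} h => Pool.Agent.Helper998.Near.rch_symm G _ a b h,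
    fun {a b c} h1 h2 => Relation.ReflTransGen.trans h1 h2⟩⟩
  refine ⟨fun v => (Quotient.mk st v).out, fun v => ?_, fun a b h => ?_⟩
  · have h : st.r ((Quotient.mk st v).out) v := Quotient.exact (Quotient.out_eq (Quotient.mk st v))
    exact Pool.Agent.Helper998.Near.rch_symm G _ _ _ h
  · show (Quotient.mk st a).out = (Quotient.mk st b).out
    rw [Quotient.sound (s := st) h]

/-- Let G be a finite loopless cubic multigraph and let C be a circuit of G.
(1) C is a member of a 5-cycle double cover of G if and only if the edges outside C can be properly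
coloured with three colours.
(2) This holds if the vertices outside C induce a bipartite graph.
(3) This holds if G is bridgeless and C misses at most eight vertices. -/
theorem result {V E : Type} [Fintype V] [DecidableEq V] [Fintype E] [DecidableEq E]
    (G : MGraph V E) (hG : IsCubic G) (C : Finset E) (hC : IsCircuit G C) :
    ((∃ D : Fin 5 → Finset E, IsKCDC G 5 D ∧ D 0 = C) ↔ EdgeThreeColourable G (univ \ C)) ∧
    (BipartiteOff G C → ∃ D : Fin 5 → Finset E, IsKCDC G 5 D ∧ D 0 = C) ∧
    (Bridgeless G → Fintype.card V ≤ C.card + 8 →
      ∃ D : Fin 5 → Finset E, IsKCDC G 5 D ∧ D 0 = C) := by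
  classical
  have key : EdgeThreeColourable G (univ \ C) → ∃ D : Fin 5 → Finset E, IsKCDC G 5 D ∧ D 0 = C := by
    intro h
    obtain ⟨A, B, hA, hB, hcov⟩ := Pool.Agent.Q108.FF.flow_of_colouring G hG C hC h
    exact Pool.Agent.Q108.FF.five_of_flow G hG C A B hC hA hB hcov
  refine ⟨⟨?_, key⟩, ?_, ?_⟩
  · rintro ⟨D, hD, h0⟩
    exact Pool.Agent.Q108.FF.colouring_of_five G C D hD h0 hC.2.1 hG
  · intro h
    exact key (Pool.Agent.Q108.FF.colouring_of_bipartite G hG C hC.2.1 h)
  · intro hb hcard
    obtain ⟨π, hπ, hπ2⟩ := exists_rep G C
    obtain ⟨e0, he0⟩ := hC.1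
    obtain ⟨p0, p1, hp01, hends0⟩ := exists_ends G e0
    have hp0 : dg G C p0 = 2 := (hC.2.1 p0).resolve_left (by
      have := dg_pos_of_mem (G := G) he0 (show p0 ∈ G.ends e0 by rw [hends0]; simp); omega)
    have hoff : (univ.filter fun v => dg G C v = 0).card ≤ 8 := by
      have h1 := Pool.Agent.Q108.FF.count_off G C hC.2.1
      omega
    obtain ⟨A, B, hA, hB, hcov⟩ := Pool.Agent.Q108.FF.flow_nine G C π hπ hπ2 hb
      (insert (π p0) ((univ.filter fun v => dg G C v = 0).image π)) (by
        refine (card_insert_le _ _).trans ?_
        have := card_image_le (s := univ.filter fun v => dg G C v = 0) (f := π)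
        omega) (by
      intro v
      rw [mem_insert, mem_image]
      rcases hC.2.1 v with h | h
      · exact Or.inr ⟨v, mem_filter.2 ⟨mem_univ _, h⟩, rfl⟩
      · left
        exact hπ2 _ _ (Pool.Agent.Helper998.Near.circ_reach G C hC v p0 h hp0))
    exact Pool.Agent.Q108.FF.five_of_flow G hG C A B hC hA hB hcov

end Pool.Agent.Results.MP_7cf8d2_co.ThreeColourable
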